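import Pool.Agent.Lib.MP_1c8e06_ag.AI.A0

set_option autoImplicit false

open Polynomial
open scoped Classical

namespace Pool.Agent.MP_1c8e06_ag.RC

noncomputable section

/-!
# Block RC: from the frozen formula back to the patching datum

`Realised k G i.range` implies `RE p k i ⊤` when the source of `i` has order `p`.
-/

/-- A copy of `k[X]`: for `b = false` it is the coordinate ring of the affine line, for `b = true`
the coordinate ring of the complement of `0` (its variable is mapped to `X⁻¹`). -/
def Pol (k : Type) [Field k] (_ : Bool) : Type := k[X]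

section
variable (k : Type) [Field k] (b : Bool)

instance : CommRing (Pol k b) := inferInstanceAs (CommRing k[X])
instance : IsDomain (Pol k b) := inferInstanceAs (IsDomain k[X])
instance : IsPrincipalIdealRing (Pol k b) := inferInstanceAs (IsPrincipalIdealRing k[X])

/-- The variable of the chart: `X` or `X⁻¹`. -/
def var : RatFunc k := if b then (RatFunc.X : RatFunc k)⁻¹ else RatFunc.X

/-- The chart. -/
def th : Pol k b →+* RatFunc k := (Polynomial.aeval (R := k) (var k b)).toRingHom

instance instAlgPol (L : Type) [Field L] [Algebra (RatFunc k) L] : Algebra (Pol k b) L :=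
  ((algebraMap (RatFunc k) L).comp (th k b)).toAlgebra

end

theorem algebraMap_Pol {k : Type} [Field k] (b : Bool) (f : Pol k b) :
    algebraMap (Pol k b) (RatFunc k) f = th k b f := rfl

theorem algebraMap_Pol_L {k : Type} [Field k] (b : Bool) (L : Type) [Field L]
    [Algebra (RatFunc k) L] (f : Pol k b) :
    algebraMap (Pol k b) L f = algebraMap (RatFunc k) L (th k b f) := rfl

instance {k : Type} [Field k] (b : Bool) (L : Type) [Field L] [Algebra (RatFunc k) L] :
    IsScalarTower (Pol k b) (RatFunc k) L :=
  IsScalarTower.of_algebraMap_eq fun _ => rfl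

theorem th_false {k : Type} [Field k] (f : k[X]) :
    th k false f = algebraMap k[X] (RatFunc k) f := by
  change Polynomial.aeval (RatFunc.X : RatFunc k) f = _
  rw [← RatFunc.algebraMap_X, Polynomial.aeval_algebraMap_apply, Polynomial.aeval_X_left_apply]

/-- The integral closure of a chart in `L`. -/
abbrev BL (k : Type) [Field k] (b : Bool) (L : Type) [Field L] [Algebra (RatFunc k) L] :
    Subalgebra (Pol k b) L := integralClosure (Pol k b) L

section
variable {k : Type} [Field k] {L : Type} [Field L] [Algebra (RatFunc k) L]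

/-- The constants in `L`. -/
def cs (L : Type) [Field L] [Algebra (RatFunc k) L] (c : k) : L :=
  algebraMap (RatFunc k) L (algebraMap k (RatFunc k) c)

/-- The variable `X` in `L`. -/
def xL (k : Type) [Field k] (L : Type) [Field L] [Algebra (RatFunc k) L] : L :=
  algebraMap (RatFunc k) L RatFunc.X

/-- `O` is a place over infinity. -/
structure Inf (k : Type) [Field k] {L : Type} [Field L] [Algebra (RatFunc k) L]
    (O : ValuationSubring L) : Prop where
  const : ∀ c : k, cs L c ∈ O
  sinv : algebraMap (RatFunc k) L (RatFunc.X)⁻¹ ∈ O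
  pole : algebraMap (RatFunc k) L RatFunc.X ∉ O

/-- The Galois group acts on the integral closures. -/
def actB (b : Bool) : (L ≃ₐ[RatFunc k] L) →* (BL k b L →+* BL k b L) where
  toFun σ :=
    { toFun := fun x => ⟨σ (x : L), by
        have h : IsIntegral (Pol k b) (x : L) := x.2
        exact h.map (σ.toAlgHom.restrictScalars (Pol k b))⟩
      map_one' := Subtype.ext (map_one σ)
      map_zero' := Subtype.ext (map_zero σ)
      map_add' := fun x y => Subtype.ext (map_add σ _ _)
      map_mul' := fun x y => Subtype.ext (map_mul σ _ _) }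
  map_one' := RingHom.ext fun x => Subtype.ext rfl
  map_mul' σ τ := RingHom.ext fun x => Subtype.ext rfl

theorem actB_coe (b : Bool) (σ : L ≃ₐ[RatFunc k] L) (x : BL k b L) :
    ((actB b σ x : BL k b L) : L) = σ (x : L) := rfl

/-- The completion of `RatFunc k` at infinity. -/
def kap (k : Type) [Field k] : RatFunc k →+* LaurentSeries k :=
  IsFractionRing.lift (A := k[X]) (K := RatFunc k) (g := AI.zinv k) AI.zinv_injective

theorem kap_algebraMap (f : k[X]) : kap k (algebraMap k[X] (RatFunc k) f) = AI.zinv k f :=
  IsFractionRing.lift_algebraMap _ f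

open Pointwise in
/-- The decomposition group in elementary terms. -/
theorem dec_iff {K : Type} [Field K] [Algebra K L] (O : ValuationSubring L) (σ : L ≃ₐ[K] L) :
    σ ∈ O.decompositionSubgroup K ↔ ∀ a, σ a ∈ O ↔ a ∈ O := by
  rw [ValuationSubring.decompositionSubgroup, MulAction.mem_stabilizer_iff]
  constructor
  · intro h a
    have h1 : σ a ∈ σ • O ↔ a ∈ O := by
      rw [ValuationSubring.mem_pointwise_smul_iff_inv_smul_mem]
      have h2 : σ⁻¹ • (σ a) = a := by
        change σ⁻¹ (σ a) = a
        rw [← AlgEquiv.mul_apply, inv_mul_cancel, AlgEquiv.one_apply]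
      rw [h2]
    rw [← h1, h]
  · intro h
    ext a
    rw [ValuationSubring.mem_pointwise_smul_iff_inv_smul_mem]
    have h2 : σ (σ⁻¹ • a) = a := by
      change σ (σ⁻¹ a) = a
      rw [← AlgEquiv.mul_apply, mul_inv_cancel, AlgEquiv.one_apply]
    rw [← h (σ⁻¹ • a), h2]

theorem val_lt_one_iff (O : ValuationSubring L) (a : L) :
    O.valuation a < 1 ↔ a ∈ O ∧ (a = 0 ∨ a⁻¹ ∉ O) := by
  rw [← ValuationSubring.valuation_le_one_iff, ← ValuationSubring.valuation_le_one_iff, map_inv₀,
    not_le]
  by_cases h0 : a = 0
  · simp [h0]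
  · have hv : O.valuation a ≠ 0 := (Valuation.ne_zero_iff _).2 h0
    constructor
    · intro h
      refine ⟨h.le, Or.inr ?_⟩
      rwa [one_lt_inv₀ (zero_lt_iff.2 hv)]
    · rintro ⟨_, h | h⟩
      · exact absurd h h0
      · rwa [one_lt_inv₀ (zero_lt_iff.2 hv)] at h

theorem dec_val {K : Type} [Field K] [Algebra K L] (O : ValuationSubring L) (σ : L ≃ₐ[K] L)
    (h : σ ∈ O.decompositionSubgroup K) (a : L) :
    O.valuation (σ a) < 1 ↔ O.valuation a < 1 := by
  rw [dec_iff] at h
  rw [val_lt_one_iff, val_lt_one_iff, h, ← map_inv₀, h, map_eq_zero]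

/-- The inertia group in elementary terms. -/
theorem in_iff {K : Type} [Field K] [Algebra K L] (O : ValuationSubring L) (σ : L ≃ₐ[K] L)
    (h : σ ∈ O.decompositionSubgroup K) :
    (⟨σ, h⟩ : O.decompositionSubgroup K) ∈ O.inertiaSubgroup K ↔
      ∀ a ∈ O, O.valuation (σ a - a) < 1 := by
  have hmax : ∀ a : O, IsLocalRing.residue O a = 0 ↔ O.valuation (a : L) < 1 := by
    intro a
    rw [IsLocalRing.residue_eq_zero_iff, ValuationSubring.valuation_lt_one_iff]
  have hkey : ∀ a : O, (⟨σ, h⟩ : O.decompositionSubgroup K) • IsLocalRing.residue O a =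
      IsLocalRing.residue O a ↔ O.valuation (σ (a : L) - (a : L)) < 1 := by
    intro a
    rw [← IsLocalRing.ResidueField.residue_smul, ← sub_eq_zero, ← map_sub, hmax]
    rfl
  constructor
  · intro h1 a ha
    rw [← hkey ⟨a, ha⟩]
    have h2 : MulSemiringAction.toRingAut (O.decompositionSubgroup K)
        (IsLocalRing.ResidueField O) ⟨σ, h⟩ = 1 := h1
    exact congrArg (fun f : RingAut (IsLocalRing.ResidueField O) => f (IsLocalRing.residue O ⟨a, ha⟩)) h2
  · intro h1
    change MulSemiringAction.toRingAut (O.decompositionSubgroup K)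
        (IsLocalRing.ResidueField O) ⟨σ, h⟩ = 1
    apply RingEquiv.ext
    intro x
    obtain ⟨a, rfl⟩ := IsLocalRing.residue_surjective x
    exact (hkey a).2 (h1 a a.2)

end

/-- The action of `P` on `L` through `i : P →* G` and the inverse of `e`. -/
def actPL {k : Type} [Field k] {L : Type} [Field L] [Algebra (RatFunc k) L] {P G : Type} [Group P]
    [Group G] (e : (L ≃ₐ[RatFunc k] L) ≃* G) (i : P →* G) : P →* (L →+* L) where
  toFun u := (e.symm (i u)).toRingEquiv.toRingHom
  map_one' := by
    rw [map_one, map_one]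
    rfl
  map_mul' u v := by
    rw [map_mul, map_mul]
    rfl

theorem actPL_apply {k : Type} [Field k] {L : Type} [Field L] [Algebra (RatFunc k) L] {P G : Type}
    [Group P] [Group G] (e : (L ≃ₐ[RatFunc k] L) ≃* G) (i : P →* G) (u : P) (a : L) :
    actPL e i u a = e.symm (i u) a := rfl

end

end Pool.Agent.MP_1c8e06_ag.RC
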